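import Pool.Agent.Lib_MP_22d2c8_ln.FinalE

/-!
# The clique function: negations above every set of inputs

`HasClique N κ` is the property of a graph on `N` vertices, given by the values of the edge
variables, that it has a clique with `κ` vertices. Circuits have and/or gates of any fan-in and
arbitrary gates such as NOT gates. Let `U` be a set of edge variables. Only the arbitrary gates
which depend on `U` are restricted: there is an assignment `z` of the variables outside `U`, which
does not depend on the circuit, such that it is enough to bound the number `T` of changes of the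
vector of the values that enter the arbitrary gates along increasing chains of inputs which agree
with `z` outside `U`. Let `E = v ^ 2 * (log₂ v + 1) ^ 3`, `F = 2 ^ 25 * E`,
`2 ^ 16 * E < κ ≤ N / 2`, `2 ^ 55 * E ^ 2 ≤ N`, and let `U` be rich (`Rich U B F v κ`): `U` contains
all the edges between two disjoint sets `A`, `L` of vertices with `16 * B * F ≤ |A| * |L|` and
`2 * F ≤ |L|`, or `2 * F ≤ κ` and `U` touches at least `8 * B * F` vertices or has at least
`2 ^ 13 * v * B * F ^ 2` elements.

* If `T < B` then a circuit which agrees with the clique function on the inputs which agree with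
  `z` outside `U` has more than `2 ^ v - N ^ 2` gates.
* For a probability distribution on these inputs which does not depend on the circuit, every
  circuit with at most `2 ^ v - N ^ 2` gates agrees with the clique function with probability at
  most `1 / 2 + T / (2 * B) + 2 ^ (-v)`.

The set of all the edge variables is rich if `64 * B * F < N ^ 2` and `4 * F < N`. For `t` NOT
gates above `U` one can take `T + 1 = 2 ^ t`; so a circuit with `s` gates for the clique function
has at least `log₂ |U| - (5 + o(1)) log₂ log₂ s` NOT gates above every set `U` of inputs, and
`log₂ (|U| + 1)` NOT gates above `U` are enough by the theorem of Fischer.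

Idea. The clique function contains the OR of `B` disjoint copies of the function which tells
whether an array with `m` rows and a prime number `q` of columns contains the graph of a polynomial
of low degree, with all the variables in `U`: selectors are joined to the cells of many arrays by
variable edges, and a constant gadget (partial sums of a polynomial) forces a clique of the right
size to consist of a selector, of the graph of a polynomial in one array and of constant vertices.
If `U` is a bipartite graph with all degrees at least `D` on one side `A` and `|A| * D` of the order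
of `|U|` (up to logarithms), then by the coupon collector's argument there is a map from the other
side to the cells of the arrays such that every vertex in `A` has neighbours in every cell of every
array; if the degrees are small then `U` touches many vertices and contains a large star forest,
whose leaves, sorted by centres, are cut into arrays. The circuit is restricted to the inputs which
agree with `z` outside `U`: the vertices which do not depend on `U` become constants.
-/

namespace Pool.Agent.Results.MP_22d2c8_lc.LocalNegations

open Pool.Agent.Lib_MP_22d2c8_clq
open Pool.Agent.Lib_MP_22d2c8_ln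
open Pool.Agent.Lib_MP_22d2c8_rsf (prob)

theorem result :
    (∀ (N κ v B : ℕ) (U : Finset (EdgeVar N)), 1 ≤ v → 1 ≤ B →
      2 ^ 16 * v ^ 2 * (Nat.log 2 v + 1) ^ 3 < κ → 2 * κ ≤ N →
      2 ^ 55 * v ^ 4 * (Nat.log 2 v + 1) ^ 6 ≤ N →
      Rich U B (2 ^ 25 * v ^ 2 * (Nat.log 2 v + 1) ^ 3) v κ →
      ∃ (z : EdgeVar N → Bool) (Ω : Type) (_ : Fintype Ω) (_ : Nonempty Ω)
        (Z : Ω → EdgeVar N → Bool), (∀ ω j, j ∉ U → Z ω j = z j) ∧
        ∀ (s T : ℕ) (C : Net (EdgeVar N) s), ChangesOnLE C (U : Set (EdgeVar N)) z T →
          (T < B → (∀ x, (∀ j, j ∉ U → x j = z j) → (C.Accepts x ↔ HasClique N κ x)) →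
            2 ^ v < N ^ 2 + s) ∧
          (N ^ 2 + s ≤ 2 ^ v → prob (fun ω => C.Accepts (Z ω) ↔ HasClique N κ (Z ω)) ≤
            1 / 2 + (T : ℝ) / (2 * B) + (1 / 2 : ℝ) ^ v)) ∧
    (∀ N B F v κ : ℕ, 64 * B * F < N ^ 2 → 4 * F < N →
      Rich (Finset.univ : Finset (EdgeVar N)) B F v κ) ∧
    (∀ (N s : ℕ) (C : Net (EdgeVar N) s) (U : Set (EdgeVar N)) (z : EdgeVar N → Bool),
      ChangesOnLE C U z (2 ^ wiresOn C U - 1) ∧
      ∀ (M : ℕ) (lev : EdgeVar N ⊕ Fin s → ℕ), C.IsLevel M lev →
        ChangesOnLE C U z (prodOn C U M lev - 1)) :=
  ⟨fun _ _ _ _ U hv hB h1 h2 h3 h4 => local_bound U hv hB h1 h2 h3 h4,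
   fun _ _ _ _ _ h hF => rich_univ h hF,
   fun _ _ C U z => ⟨changesOn_wires C U z, fun M lev h => changesOn_level C U z M lev h⟩⟩

end Pool.Agent.Results.MP_22d2c8_lc.LocalNegations
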