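import Pool.Agent.Lib_MP_22d2c8_pm.Local
import Pool.Agent.Lib_MP_22d2c8_pm.UpE

/-!
# Perfect matching needs superpolynomial circuits with few negations above a set of inputs

The inputs of the circuits are the edges of a bipartite host graph `H` with `N + N` vertices (so an
input is a subgraph of `H`). The function is any property `P` of the subgraphs which is true if
there is a perfect matching and false if there is a connected component with an odd number of
vertices, for instance the existence of a perfect matching. Circuits with and-gates and or-gates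
of any fan-in and arbitrary gates (such as NOT gates). `U` is a set of inputs; the measure of
non-monotonicity is the number `T` of the changes of the vector of the values of the vertices which
feed arbitrary gates, along increasing chains of inputs which agree with a fixed input `z` outside
`U` (`T = 2 ^ t - 1` for `t` NOT gates above `U`, the other NOT gates do not count). If `U` contains
many disjoint edges then `T` must be large; this is sharp for the property of having no odd
component, since few NOT gates above `U` are enough if few vertices cover all the edges in `U`.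
-/

namespace Pool.Agent.Results.MP_22d2c8_lc.MatchingFewNegations

open Pool.Agent.Lib_MP_22d2c8_clq (Net)
open Pool.Agent.Lib_MP_22d2c8_ln (Above ChangesOnLE wiresOn prodOn changesOn_wires changesOn_level)
open Pool.Agent.Lib_MP_22d2c8_pm
open Pool.Agent.Lib_MP_22d2c8_rsf (prob)

theorem result :
    -- a graph with a perfect matching has no odd component
    (∀ (N : ℕ) (H : Fin N → Fin N → Prop) (x : HostEdge H → Bool),
      HasPM H x → ¬ HasOddPart H x) ∧
    -- (a) the worst case, (b) the average case
    (∀ (N m B : ℕ) (H : Fin N → Fin N → Prop) (U : Set (HostEdge H)), 1 ≤ m → 1 ≤ B →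
      Room H U B m →
      ∃ (z : HostEdge H → Bool) (Ω : Type) (_ : Fintype Ω) (_ : Nonempty Ω)
        (Z : Ω → HostEdge H → Bool), (∀ ω e, e ∉ U → Z ω e = z e) ∧
        ∀ (v s T : ℕ) (P : (HostEdge H → Bool) → Prop) (C : Net (HostEdge H) s),
          (∀ x, HasPM H x → P x) → (∀ x, HasOddPart H x → ¬ P x) → 1 ≤ v →
          2 ^ 28 * v ^ 6 * (Nat.log 2 m + 1) ^ 2 ≤ m → ChangesOnLE C U z T →
          ((∀ x, (∀ e, e ∉ U → x e = z e) → (C.Accepts x ↔ P x)) → T < B →
            2 ^ v < m ^ 2 + s + 4) ∧
          (m ^ 2 + s + 4 ≤ 2 ^ v → prob (fun ω => C.Accepts (Z ω) ↔ P (Z ω)) ≤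
            1 / 2 + (T : ℝ) / (2 * B) + (1 / 2 : ℝ) ^ v)) ∧
    -- sets of inputs with room
    (∀ (N m : ℕ) (H : Fin N → Fin N → Prop),
      (∀ i j : Fin N, (i : ℕ) / m = (j : ℕ) / m → H i j) → Room H Set.univ (N / m) m) ∧
    (∀ (N m B : ℕ) (U : Set (HostEdge (Full N))), 3 * B * m ^ 2 ≤ N →
      2 * B * m ^ 2 * N < U.ncard → Room (Full N) U B m) ∧
    -- (c) almost all inputs lie below an arbitrary gate
    (∀ (N m v s : ℕ) (P : (HostEdge (Full N) → Bool) → Prop) (C : Net (HostEdge (Full N)) s),
      (∀ x, HasPM (Full N) x → P x) → (∀ x, HasOddPart (Full N) x → ¬ P x) →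
      (∀ x, C.Accepts x ↔ P x) → 1 ≤ v → 2 ^ 28 * v ^ 6 * (Nat.log 2 m + 1) ^ 2 ≤ m →
      3 * m ^ 2 ≤ N → m ^ 2 + s + 4 ≤ 2 ^ v →
      {e : HostEdge (Full N) | ∀ u, C.IsEntry u → ¬ Above C {e} u}.ncard ≤ 2 * m ^ 2 * N) ∧
    -- (d) few NOT gates above `U` are enough if few vertices cover the edges in `U`
    (∀ (N : ℕ) (H : Fin N → Fin N → Prop) (C : Finset (Fin N ⊕ Fin N)), C.Nonempty →
      ∃ (s : ℕ) (Q : Net (HostEdge H) s), s ≤ 16 * (N + 1) ^ 4 ∧
        (∀ x, Q.Accepts x ↔ ¬ HasOddPart H x) ∧
        ∀ U : Set (HostEdge H), (∀ e ∈ U, Sum.inl e.1.1 ∈ C ∨ Sum.inr e.1.2 ∈ C) →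
          wiresOn Q U ≤ Nat.clog 2 C.card) ∧
    -- the numbers of changes
    (∀ (V : Type) [Fintype V] (s : ℕ) (C : Net V s) (U : Set V) (z : V → Bool),
      ChangesOnLE C U z (2 ^ wiresOn C U - 1) ∧
      ∀ (M : ℕ) (lev : V ⊕ Fin s → ℕ), C.IsLevel M lev →
        ChangesOnLE C U z (prodOn C U M lev - 1)) :=
  ⟨fun _ _ _ h => not_oddPart_of_hasPM h,
    fun _ _ _ _ _ hm hB hR => local_main hm hB hR,
    fun _ _ _ hH => room_blocks hH,
    fun _ _ _ _ hN hU => room_of_card hN hU,
    fun _ _ _ _ _ C hP1 hP0 hC hv hm hN hs => all_below C hP1 hP0 hC hv hm hN hs,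
    fun _ H C hC => upper H C hC,
    fun _ _ _ C U z => ⟨changesOn_wires C U z, fun M lev h => changesOn_level C U z M lev h⟩⟩

end Pool.Agent.Results.MP_22d2c8_lc.MatchingFewNegations
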