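import Pool.Agent.Lib_MP_22d2c8_few.ExactCancel

/-!
# Multiplication: many gates cancel, or the circuit is large

The gates of a circuit are arbitrary Boolean functions of any number of arguments; `W` is the number
of wires, `s` is the number of gates, and `log` is the integer part of the logarithm to the base 2.
Let `x` be an input and `U` a set of variables, and let `Q` be the set of the inputs that agree with
`x` outside `U`. A gate cancels with `U` if it is constant on `Q` but it would not be constant if its
arguments that are not constant on `Q` were independent variables. An output has a hazard with `U` if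
it is constant on `Q` but unstable in the ternary (Kleene) evaluation in which the variables in `U`
are unstable. A gate is ideal if it is replaced in this evaluation by its exact ternary value: stable
if it is constant on `Q` and unstable otherwise.

* Integers. Let `r, M ≥ 1`, `L = log r + 6` and `2 ^ 20 L M r ^ 2 (log n + 1) ≤ n`. There are `y` and a
  set `G` of at least `3 / 4` of the `n`-bit numbers such that every circuit for the product of two
  `n`-bit numbers has, at every input `(x, y)` with `x` in `G`, at least `n / (16 L) - W / (r + 1)`
  gates each of which cancels with at least `M ^ r / (256 L s)` sets `U` of exactly `r` bits of the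
  first factor. Moreover, if `E` is a set of gates with `16 L (W + (r + 1) |E|) < n (r + 1)`, then there
  are more than `n M ^ r / (128 L)` hazards at `(x, y)` (pairs of an output and a set `U` of exactly `r`
  bits of the first factor) although the gates in `E` are ideal.
* Polynomials over the field with two elements: the same for every `x`, with `L = 1` in the condition,
  `8` instead of `16 L`, `128` instead of `256 L` and `64` instead of `128 L`.
* The theorem on which these are based. Let `A k` be sets of inputs such that any `h + 1` inputs lie
  together in at most `m` of them, and let the output `k` be sensitive at the input `x` to all the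
  inputs in `A k` (`h ≥ 1`, `d ≥ 1`, `|A k ∩ N| > h`). If the output `k` is stable at `x` whenever at
  most `d` inputs in `N`, none of them in `A k`, are unstable and the gates in `E` are ideal, then
  `∑ k, min |A k ∩ N| (h (d + 1)) ≤ h m (W' + (d + 1) |E|)`, where `W'` is the number of wires that
  enter gates outside `E`.

So in every circuit with `O(n)` wires for the product of integers a constant fraction of all gates
cancel at most inputs with sets of constant size, and there are hazards even if `c n` gates, for a
constant `c`, are made ideal. Circuits in which `o(n)` gates cancel, with at most `d` unstable bits at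
one of these inputs, have a superlinear number of wires if `d` tends to infinity.

Idea. A set of inputs switches on a vertex if the vertex is unstable when the variables of the set are
unstable. A gate is pure for `A k` if it is switched on by more than `h` inputs and only by inputs in
`A k`. A gate is pure for at most `m` of the sets; so all but `m |E|` of the outputs have only pure
gates that are not ideal. Consider the vertices which feed these pure gates and are not pure. If at
most `d` of them are switched on by an input outside `A k` then one small set switches all of them on,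
and the others are switched on by at most `h` inputs each, so there must be at least `|A k| / h` of
them. If there are few hazards then this is applied to a random set of inputs of density `1 / M`,
which contains no hazard of half of the outputs. For the products the sets `A k` are the translates of
a set of residues of which any two translates have a small intersection. The factor `y` is so sparse
that a change of at most `r` bits of `x` at positions divisible by `L` changes every block of `L`
digits of the product by at most `r`, and for most `x` most of the blocks of `x * y` are not close to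
`0` or `2 ^ L`, so that there are no carries. For the cancelling gates let `E` be the set of the gates
which cancel with many sets: every hazard that remains comes from a gate outside `E` which cancels.
-/

namespace Pool.Agent.Results.MP_22d2c8_lc.MultiplicationHazards

open Pool.Agent.Lib_MP_22d2c8_hz
open Finset

theorem result :
    (∀ n r M : ℕ, 1 ≤ r → 1 ≤ M →
      2 ^ 20 * M * r ^ 2 * (Nat.log 2 n + 1) * (Nat.log 2 r + 6) ≤ n →
      ∃ (y : Fin n → Bool) (G : Finset (Fin n → Bool)), 3 * 2 ^ n ≤ 4 * G.card ∧
        ∀ C : Circuit (Fin n ⊕ Fin n) (Fin (2 * n)), C.MulNat → ∀ x ∈ G,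
          n * (r + 1) ≤ 16 * (Nat.log 2 r + 6) * (C.wires + (r + 1) *
            (univ.filter fun g : Fin C.size =>
              M ^ r ≤ 256 * (Nat.log 2 r + 6) * C.size * (C.cancels x y r g).card).card) ∧
          ∀ E : Finset (Fin C.size), 128 * (Nat.log 2 r + 6) * C.hazardsE E x y r ≤ n * M ^ r →
            n * (r + 1) ≤
              16 * (Nat.log 2 r + 6) * (∑ g ∈ univ \ E, C.ar g + (r + 1) * E.card)) ∧
    (∀ n r M : ℕ, 1 ≤ r → 1 ≤ M → 2 ^ 20 * M * r ^ 2 * (Nat.log 2 n + 1) ≤ n →
      ∃ y : Fin n → Bool, ∀ C : Circuit (Fin n ⊕ Fin n) (Fin (2 * n)), C.MulPoly →
        ∀ x : Fin n → Bool,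
          n * (r + 1) ≤ 8 * (C.wires + (r + 1) * (univ.filter fun g : Fin C.size =>
            M ^ r ≤ 128 * C.size * (C.cancels x y r g).card).card) ∧
          ∀ E : Finset (Fin C.size), 64 * C.hazardsE E x y r ≤ n * M ^ r →
            n * (r + 1) ≤ 8 * (∑ g ∈ univ \ E, C.ar g + (r + 1) * E.card)) ∧
    (∀ (ι κ : Type) [Fintype ι] [DecidableEq ι] (C : Circuit ι κ) (E : Finset (Fin C.size))
      (x : ι → Bool) (N : Finset ι) (K : Finset κ) (A : κ → Finset ι) (d h m : ℕ),
      1 ≤ d → 1 ≤ h → (∀ k ∈ K, h < (A k ∩ N).card) →
      (∀ S : Finset ι, h < S.card → (K.filter fun k => S ⊆ A k).card ≤ m) →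
      (∀ k ∈ K, ∀ i ∈ A k, C.val (flipAt x i) (C.out k) ≠ C.val x (C.out k)) →
      (∀ k ∈ K, ∀ U ⊆ N, U.card ≤ d → Disjoint U (A k) →
        C.tvalE E x U (C.out k) ≠ none) →
      ∑ k ∈ K, min (A k ∩ N).card (h * (d + 1)) ≤
        h * (m * (∑ g ∈ univ \ E, C.ar g + (d + 1) * E.card))) := by
  refine ⟨fun n r M h1 h2 h3 => ?_, fun n r M h1 h2 h3 => ?_,
    fun _ _ _ _ C E x N K A d h m hd hh h1 h2 h3 h4 =>
      (C.hazard_boundE E x N K A d hh h1 h2 h3 hd h4).1⟩
  · obtain ⟨y, G, hG, h⟩ := mul_few_mostE h1 h2 h3
    refine ⟨y, G, hG, fun C hC x hx => ⟨?_, fun E hE => (h C hC E x hx hE).1⟩⟩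
    have h4 := (h C hC (univ.filter fun g : Fin C.size =>
      M ^ r ≤ 2 * (128 * (Nat.log 2 r + 6)) * C.size * (C.cancels x y r g).card) x hx
      (C.hazardsE_heavy x y r (128 * (Nat.log 2 r + 6)) M)).1
    rw [show 2 * (128 * (Nat.log 2 r + 6)) = 256 * (Nat.log 2 r + 6) by ring] at h4
    exact h4.trans (Nat.mul_le_mul_left _ (Nat.add_le_add_right (C.sum_ar_le _) _))
  · obtain ⟨y, h⟩ := poly_few_exactE h1 h2 h3
    refine ⟨y, fun C hC x => ⟨?_, fun E hE => (h C hC E x hE).1⟩⟩
    have h4 := (h C hC (univ.filter fun g : Fin C.size =>
      M ^ r ≤ 2 * 64 * C.size * (C.cancels x y r g).card) x (C.hazardsE_heavy x y r 64 M)).1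
    exact h4.trans (Nat.mul_le_mul_left _ (Nat.add_le_add_right (C.sum_ar_le _) _))

end Pool.Agent.Results.MP_22d2c8_lc.MultiplicationHazards
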