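import Pool.Agent.Lib_MP_22d2c8_so.NegQ
import Pool.Agent.Lib_MP_22d2c8_so.HazQ
import Pool.Agent.Lib_MP_22d2c8_gen.Level

/-!
# One output: superlinear size with few negations or with few hazards

`BlockPM` is an explicit monotone function with one output. Circuits with and-gates and or-gates of
any fan-in and arbitrary gates (such as NOT gates). With `dd K = 2 ^ 2 ^ K ^ 22` and `K ≥ K0`:

* a circuit which computes the function and whose vector of the values of the vertices which feed
  arbitrary gates changes at most `T` times along increasing chains of inputs, `dd K * (T + 1) ≤ n`,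
  has more than `K * n` wires into and-gates and or-gates;
* a circuit with at most `K * n` wires, whose arbitrary gates have fan-in at most two, has at every
  input `x` of value zero with at most `n / dd K - 1` ones at least `n / dd K` pairwise disjoint
  hazards with at most `dd K` unstable variables.
-/

namespace Pool.Agent.Results.MP_22d2c8_lc.OneOutput

open Finset
open Pool.Agent.Lib_MP_22d2c8_gen (Circuit)
open Pool.Agent.Lib_MP_22d2c8_so

theorem result :
    -- few negations
    (∃ K0 : ℕ, ∀ K, K0 ≤ K → ∀ (n s T : ℕ) (C : Circuit n s),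
      C.Computes (pmFun n) → C.EntryChangesLE T → dd K * (T + 1) ≤ n → K * n < wires C) ∧
    -- few hazards
    (∃ K0 : ℕ, ∀ K, K0 ≤ K → ∀ (n s : ℕ) (C : Circuit n s),
      (∀ g, (C.op g).isArb = true → (C.op g).preds.card ≤ 2) → C.Computes (pmFun n) →
      allWires C ≤ K * n → ∀ x : Fin n → Bool, pmFun n x = false →
      dd K * ((univ.filter (fun j => x j = true)).card + 1) ≤ n →
      ∃ F : Finset (Finset (Fin n)), n ≤ dd K * F.card ∧
        (∀ S ∈ F, S.card ≤ dd K ∧ IsHazardAt C (pmFun n) x S) ∧
        ∀ S ∈ F, ∀ S' ∈ F, S ≠ S' → Disjoint S S') ∧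
    -- the numbers of changes
    (∀ (n s : ℕ) (C : Circuit n s), C.EntryChangesLE (2 ^ C.entryWires - 1) ∧
      ∀ (M : ℕ) (lev : Fin n ⊕ Fin s → ℕ), C.IsLevel M lev →
        C.EntryChangesLE (C.entryProd M lev - 1)) :=
  ⟨negations_q, hazards_q, fun _ _ C => ⟨Pool.Agent.Lib_MP_22d2c8_gen.changes_wires C,
    fun M lev h => Pool.Agent.Lib_MP_22d2c8_gen.changes_of_level C M lev h⟩⟩

end Pool.Agent.Results.MP_22d2c8_lc.OneOutput
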